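import Pool.Agent.PLN.Mem

/-!
# Deciding whether the ply number is at most `k` is complete for `∃ℝ`, already for `k = 1`

Answer to Q1 of MP_ccde9d_lc: yes, PLY is `∃ℝ`-complete, even if `k` is fixed to be `1`.

The statement is about the definition in the problem file: the ply number of a graph is the least
`k` such that in some straight-line drawing (an injective map of the vertices to the plane) every
point of the plane is in at most `k` of the open disks around the vertices whose radius is half the
length of the longest incident edge. For `k = 1` and a connected graph with an edge this means that
all edges have the same length `1` and all distances of distinct vertices are at least `1` (so
non-adjacent vertices may have distance `1`, and `K_{1,6}` has ply number `1`).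

Membership (files `Me1`-`Me8`, `Mf`). Given a drawing, the points of the plane that are in the
largest number of disks can be pushed to a candidate point: the lowest point of a disk, or an
intersection point of two circles, seen from an infinitesimal direction. So the depth of the
drawing is at most `k` if and only if every candidate (at most `n + n (n - 1)` of them) is in at
most `k` disks, which is expressed by an existential formula with one variable for every indicator.

Hardness. The truth of an existential sentence is reduced to the existence of a zero in `ℝ^n` of a
polynomial map (as in the project for MP_e38cae_lc), hence to a straight-line system, and by an
explicit bound for small real zeros (files `Ba1`-`Ba8`: a Lagrange multiplier perturbation of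
the system, and the norm of a multiplication matrix) to a straight-line system with solutions in a
small ball. Additions and inversions near `1` are simulated by unit vectors: a Peaucellier type
linkage in the language of linear relations between unit complex numbers (files `Al1`-`Al11`).
Such a system of relations between unit vectors is written as a layout of a grid of rhombi with
holes (`Uvd`, `Ly1`-`Ly12`): unit vectors are the steps of bundles of rows and columns; a rigid
body glued into a hole (built on the Eisenstein identity `7 rho = 8 om - 5`) transfers a unit
vector from rows to columns, a central hole adds unit vectors, ties on the boundary make bundles
parallel, and one lever makes a fixed angle not too small. The files `Nm1`-`Nm3`, `Rg1`-`Rg9` prove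
that every realisation of the graph gives a solution (rigidity), `Po1`-`Po6`, `Re1`-`Re13` that
every solution near the nominal position gives a realisation (all distances of distinct vertices
are at least `1`: an integral quadratic form and explicit estimates), `Co1`-`Co4` that a connected
graph has ply number at most `1` if and only if it has a realisation. The files `Pt0`-`Pt7`,
`Cx1`-`Cx5` bound the time of the reductions for the `TM2` machines of Mathlib.
-/

namespace Pool.Agent.Results.MP_ccde9d_lc.PlyComplete

open Pool.Agent.PLN

/-- Deciding whether the ply number of a graph is at most `k` is `∃ℝ`-complete, and so is the
restriction to `k = 1`. -/
theorem result : ERComplete PLY ∧ ERComplete PLY1 := main

end Pool.Agent.Results.MP_ccde9d_lc.PlyComplete
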